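import Mathlib

set_option autoImplicit false

/-!
# Cyclic words in the orbits of the automorphism group of a free group: the definitions
-/

namespace Pool.Agent.H67R4.OG

open FreeGroup Filter

variable {k : ℕ}

/-- The number of occurrences of the letter `x`, with any sign, in a word. -/
def occ (x : Fin k) (L : List (Fin k × Bool)) : ℕ := L.countP fun a => a.1 = x

/-- `mu x w`: the smallest positive number of occurrences of the letter `x` (with any sign) in the
reduced word of some element of the orbit of `w` under the automorphisms. -/
noncomputable def mu (x : Fin k) (w : FreeGroup (Fin k)) : ℕ :=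
  sInf {n | 0 < n ∧ ∃ φ : FreeGroup (Fin k) ≃* FreeGroup (Fin k), occ x (φ w).toWord = n}

/-- The variant of `mu` in which only the cyclically reduced elements of the orbit are used. -/
noncomputable def muCyc (x : Fin k) (w : FreeGroup (Fin k)) : ℕ :=
  sInf {n | 0 < n ∧ ∃ φ : FreeGroup (Fin k) ≃* FreeGroup (Fin k),
    IsCyclicallyReduced (φ w).toWord ∧ occ x (φ w).toWord = n}

/-- The set of the cyclic words (conjugacy classes) of length `N` which are contained in the orbit
of `w` under the automorphisms of the free group. The length of a cyclic word is the length of any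
cyclically reduced word in the class. -/
def CyclicWords (w : FreeGroup (Fin k)) (N : ℕ) : Set (ConjClasses (FreeGroup (Fin k))) :=
  {C | (∃ φ : FreeGroup (Fin k) ≃* FreeGroup (Fin k), C = ConjClasses.mk (φ w)) ∧
    ∃ L : List (Fin k × Bool), IsCyclicallyReduced L ∧ L.length = N ∧
      C = ConjClasses.mk (FreeGroup.mk L)}

/-- The exponential growth rate of the set of the cyclic words in the orbit of `w`. -/
noncomputable def growth (w : FreeGroup (Fin k)) : ℝ :=
  limsup (fun N : ℕ => ((CyclicWords w N).ncard : ℝ) ^ ((1 : ℝ) / N)) atTop

/-- The product of the cubes of the generators. -/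
def cubes (k : ℕ) : FreeGroup (Fin k) := (List.ofFn fun i : Fin k => FreeGroup.of i ^ 3).prod

end Pool.Agent.H67R4.OG
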