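import Mathlib
import Pool.Agent.H67R4.OG.Defs

set_option autoImplicit false

/-!
# The product of the cubes of the generators: occurrences of a letter in its images
-/

namespace Pool.Agent.H67R4.OG

open FreeGroup

/-- The group of the unitriangular matrices of size four over the field with three elements. -/
@[ext]
structure U3 where
  p : ZMod 3
  q : ZMod 3
  r : ZMod 3
  s : ZMod 3
  t : ZMod 3
  u : ZMod 3

instance : Mul U3 where
  mul x y := ⟨x.p + y.p, x.q + y.q, x.r + y.r, x.s + y.s + x.p * y.q, x.t + y.t + x.q * y.r,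
    x.u + y.u + x.p * y.t + x.s * y.r⟩

instance : One U3 where
  one := ⟨0, 0, 0, 0, 0, 0⟩

instance : Inv U3 where
  inv x := ⟨-x.p, -x.q, -x.r, -x.s + x.p * x.q, -x.t + x.q * x.r,
    -x.u + x.p * x.t + x.s * x.r - x.p * x.q * x.r⟩

theorem mul_def (x y : U3) : x * y = ⟨x.p + y.p, x.q + y.q, x.r + y.r, x.s + y.s + x.p * y.q,
    x.t + y.t + x.q * y.r, x.u + y.u + x.p * y.t + x.s * y.r⟩ := rfl

theorem one_def : (1 : U3) = ⟨0, 0, 0, 0, 0, 0⟩ := rfl

theorem inv_def (x : U3) : x⁻¹ = ⟨-x.p, -x.q, -x.r, -x.s + x.p * x.q, -x.t + x.q * x.r,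
    -x.u + x.p * x.t + x.s * x.r - x.p * x.q * x.r⟩ := rfl

instance : Group U3 := Group.ofLeftAxioms
  (by
    intro x y z
    simp only [mul_def]
    ext <;> simp only <;> ring)
  (by
    intro x
    simp only [mul_def, one_def]
    ext <;> simp only <;> ring)
  (by
    intro x
    simp only [mul_def, one_def, inv_def]
    ext <;> simp only <;> ring)

theorem cube (x : U3) : x ^ 3 = ⟨0, 0, 0, 0, 0, x.p * x.q * x.r⟩ := by
  have h3 : (3 : ZMod 3) = 0 := rfl
  rw [pow_succ, pow_succ, pow_one]
  simp only [mul_def]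
  ext <;> simp only
  · linear_combination x.p * h3
  · linear_combination x.q * h3
  · linear_combination x.r * h3
  · linear_combination (x.s + x.p * x.q) * h3
  · linear_combination (x.t + x.q * x.r) * h3
  · linear_combination (x.u + x.p * x.t + x.s * x.r) * h3

/-- The centre. -/
def J : Multiplicative (ZMod 3) →* U3 where
  toFun z := ⟨0, 0, 0, 0, 0, z.toAdd⟩
  map_one' := rfl
  map_mul' a b := by
    simp only [mul_def, toAdd_mul]
    ext <;> simp only <;> ring

/-- The entries above the diagonal. -/
def Hp : U3 →* Multiplicative (ZMod 3) where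
  toFun x := Multiplicative.ofAdd x.p
  map_one' := rfl
  map_mul' _ _ := rfl

def Hq : U3 →* Multiplicative (ZMod 3) where
  toFun x := Multiplicative.ofAdd x.q
  map_one' := rfl
  map_mul' _ _ := rfl

def Hr : U3 →* Multiplicative (ZMod 3) where
  toFun x := Multiplicative.ofAdd x.r
  map_one' := rfl
  map_mul' _ _ := rfl

variable {k : ℕ}

/-- The exponent sum of the letter `a` modulo three, multiplicatively. -/
def Em (a : Fin k) : FreeGroup (Fin k) →* Multiplicative (ZMod 3) :=
  lift fun x => Multiplicative.ofAdd (if x = a then 1 else 0)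

/-- The exponent sum of the letter `a` modulo three. -/
def E (a : Fin k) (g : FreeGroup (Fin k)) : ZMod 3 := (Em a g).toAdd

def rho (a b c : Fin k) : FreeGroup (Fin k) →* U3 :=
  lift fun x => ⟨if x = a then 1 else 0, if x = b then 1 else 0, if x = c then 1 else 0, 0, 0, 0⟩

theorem rho_p (a b c : Fin k) (g : FreeGroup (Fin k)) : (rho a b c g).p = E a g := by
  have : Hp.comp (rho a b c) = Em a := by
    apply FreeGroup.ext_hom
    intro x
    simp [rho, Em, Hp]
  have h := congrArg (fun f => (f g).toAdd) this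
  exact h

theorem rho_q (a b c : Fin k) (g : FreeGroup (Fin k)) : (rho a b c g).q = E b g := by
  have : Hq.comp (rho a b c) = Em b := by
    apply FreeGroup.ext_hom
    intro x
    simp [rho, Em, Hq]
  have h := congrArg (fun f => (f g).toAdd) this
  exact h

theorem rho_r (a b c : Fin k) (g : FreeGroup (Fin k)) : (rho a b c g).r = E c g := by
  have : Hr.comp (rho a b c) = Em c := by
    apply FreeGroup.ext_hom
    intro x
    simp [rho, Em, Hr]
  have h := congrArg (fun f => (f g).toAdd) this
  exact h

theorem E_mul (a : Fin k) (g h : FreeGroup (Fin k)) : E a (g * h) = E a g + E a h := by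
  simp [E, toAdd_mul]

theorem E_of (a x : Fin k) : E a (FreeGroup.of x) = if x = a then 1 else 0 := by
  simp [E, Em]

theorem rho_cubes (φ : FreeGroup (Fin k) →* FreeGroup (Fin k)) (a b c : Fin k) :
    rho a b c (φ (cubes k)) = ⟨0, 0, 0, 0, 0, ∑ i, E a (φ (FreeGroup.of i)) *
      E b (φ (FreeGroup.of i)) * E c (φ (FreeGroup.of i))⟩ := by
  have h1 : rho a b c (φ (cubes k)) = (List.ofFn fun i : Fin k =>
      J (Multiplicative.ofAdd (E a (φ (FreeGroup.of i)) * E b (φ (FreeGroup.of i)) *
        E c (φ (FreeGroup.of i))))).prod := by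
    rw [cubes, map_list_prod, map_list_prod, List.map_map, List.map_ofFn]
    congr 2
    funext i
    simp only [Function.comp_apply, map_pow, cube, rho_p, rho_q, rho_r]
    rfl
  have h2 : (List.ofFn fun i : Fin k =>
      J (Multiplicative.ofAdd (E a (φ (FreeGroup.of i)) * E b (φ (FreeGroup.of i)) *
        E c (φ (FreeGroup.of i))))) = (List.ofFn fun i : Fin k =>
      (Multiplicative.ofAdd (E a (φ (FreeGroup.of i)) * E b (φ (FreeGroup.of i)) *
        E c (φ (FreeGroup.of i))))).map J := by
    rw [List.map_ofFn]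
    rfl
  rw [h1, h2, ← map_list_prod, List.prod_ofFn, ← ofAdd_sum]
  rfl

theorem split_occ (x : Fin k) (n : ℕ) : ∀ L : List (Fin k × Bool), occ x L = n + 1 →
    ∃ (L1 L2 : List (Fin k × Bool)) (e : Bool), L = L1 ++ (x, e) :: L2 ∧ occ x L1 = 0 ∧
      occ x L2 = n
  | [], h => by simp [occ] at h
  | a :: L, h => by
    by_cases ha : a.1 = x
    · refine ⟨[], L, a.2, ?_, rfl, ?_⟩
      · rw [← ha]; rfl
      · unfold occ at h ⊢
        rw [List.countP_cons_of_pos (by simpa using ha)] at h
        omega
    · have h' : occ x L = n + 1 := by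
        unfold occ at h ⊢
        rwa [List.countP_cons_of_neg (by simpa using ha)] at h
      obtain ⟨L1, L2, e, h1, h2, h3⟩ := split_occ x n L h'
      refine ⟨a :: L1, L2, e, by rw [h1]; rfl, ?_, h3⟩
      unfold occ at h2 ⊢
      rwa [List.countP_cons_of_neg (by simpa using ha)]

theorem mk_cons' (a : Fin k × Bool) (L : List (Fin k × Bool)) :
    (FreeGroup.mk (a :: L) : FreeGroup (Fin k)) =
      (cond a.2 (FreeGroup.of a.1) (FreeGroup.of a.1)⁻¹) * FreeGroup.mk L := by
  obtain ⟨x, e⟩ := a
  have : (FreeGroup.mk ((x, e) :: L) : FreeGroup (Fin k)) = FreeGroup.mk [(x, e)] * FreeGroup.mk L := by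
    rw [FreeGroup.mul_mk]
    rfl
  rw [this]
  cases e <;> rfl

theorem E_occ_zero (x : Fin k) : ∀ L : List (Fin k × Bool), occ x L = 0 → E x (FreeGroup.mk L) = 0
  | [], _ => by
    rw [← FreeGroup.one_eq_mk]
    simp [E]
  | a :: L, h => by
    unfold occ at h
    rw [List.countP_eq_zero] at h
    have h1 : a.1 ≠ x := by simpa using h a (by simp)
    have h2 : occ x L = 0 := by
      unfold occ
      rw [List.countP_eq_zero]
      exact fun b hb => h b (List.mem_cons_of_mem _ hb)
    rw [mk_cons', E_mul, E_occ_zero x L h2]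
    obtain ⟨y, e⟩ := a
    have h1' : y ≠ x := h1
    cases e <;> simp [E, Em, h1']

theorem rho_occ_zero1 (x b c : Fin k) (hb : b ≠ x) (hc : c ≠ x) : ∀ L : List (Fin k × Bool),
    occ x L = 0 → ∃ p r, rho b x c (FreeGroup.mk L) = ⟨p, 0, r, 0, 0, 0⟩
  | [], _ => by
    rw [← FreeGroup.one_eq_mk]
    exact ⟨0, 0, by rw [_root_.map_one]; rfl⟩
  | a :: L, h => by
    unfold occ at h
    rw [List.countP_eq_zero] at h
    have h1 : a.1 ≠ x := by simpa using h a (by simp)
    have h2 : occ x L = 0 := by
      unfold occ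
      rw [List.countP_eq_zero]
      exact fun b hb => h b (List.mem_cons_of_mem _ hb)
    obtain ⟨p, r, hp⟩ := rho_occ_zero1 x b c hb hc L h2
    obtain ⟨y, e⟩ := a
    have h1' : y ≠ x := h1
    rw [mk_cons', _root_.map_mul, hp]
    cases e
    · refine ⟨-(if y = b then 1 else 0) + p, -(if y = c then 1 else 0) + r, ?_⟩
      simp only [cond_false, _root_.map_inv, rho, lift_apply_of, inv_def, mul_def, h1', if_false]
      ext <;> simp
    · refine ⟨(if y = b then 1 else 0) + p, (if y = c then 1 else 0) + r, ?_⟩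
      simp only [cond_true, rho, lift_apply_of, mul_def, h1', if_false]
      ext <;> simp

theorem rho_occ_zero2 (x c : Fin k) (hc : c ≠ x) : ∀ L : List (Fin k × Bool),
    occ x L = 0 → ∃ q, rho x c x (FreeGroup.mk L) = ⟨0, q, 0, 0, 0, 0⟩
  | [], _ => by
    rw [← FreeGroup.one_eq_mk]
    exact ⟨0, by rw [_root_.map_one]; rfl⟩
  | a :: L, h => by
    unfold occ at h
    rw [List.countP_eq_zero] at h
    have h1 : a.1 ≠ x := by simpa using h a (by simp)
    have h2 : occ x L = 0 := by
      unfold occ
      rw [List.countP_eq_zero]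
      exact fun b hb => h b (List.mem_cons_of_mem _ hb)
    obtain ⟨q, hp⟩ := rho_occ_zero2 x c hc L h2
    obtain ⟨y, e⟩ := a
    have h1' : y ≠ x := h1
    rw [mk_cons', _root_.map_mul, hp]
    cases e
    · refine ⟨-(if y = c then 1 else 0) + q, ?_⟩
      simp only [cond_false, _root_.map_inv, rho, lift_apply_of, inv_def, mul_def, h1', if_false]
      ext <;> simp
    · refine ⟨(if y = c then 1 else 0) + q, ?_⟩
      simp only [cond_true, rho, lift_apply_of, mul_def, h1', if_false]
      ext <;> simp

theorem rho_occ_zero3 (x : Fin k) : ∀ L : List (Fin k × Bool),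
    occ x L = 0 → rho x x x (FreeGroup.mk L) = 1
  | [], _ => by
    rw [← FreeGroup.one_eq_mk, _root_.map_one]
  | a :: L, h => by
    unfold occ at h
    rw [List.countP_eq_zero] at h
    have h1 : a.1 ≠ x := by simpa using h a (by simp)
    have h2 : occ x L = 0 := by
      unfold occ
      rw [List.countP_eq_zero]
      exact fun b hb => h b (List.mem_cons_of_mem _ hb)
    obtain ⟨y, e⟩ := a
    have h1' : y ≠ x := h1
    rw [mk_cons', _root_.map_mul, rho_occ_zero3 x L h2, mul_one]
    cases e
    · simp only [cond_false, _root_.map_inv, rho, lift_apply_of, inv_def, h1', if_false, one_def]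
      ext <;> simp
    · simp only [cond_true, rho, lift_apply_of, h1', if_false, one_def]

/-- The letter with a sign. -/
def sg (x : Fin k) (e : Bool) : FreeGroup (Fin k) := cond e (FreeGroup.of x) (FreeGroup.of x)⁻¹

theorem E_sg (x : Fin k) (e : Bool) : E x (sg x e) = cond e 1 (-1) := by
  cases e <;> simp [sg, E, Em]

theorem mk_split (x : Fin k) (L1 L2 : List (Fin k × Bool)) (e : Bool) :
    (FreeGroup.mk (L1 ++ (x, e) :: L2) : FreeGroup (Fin k)) =
      FreeGroup.mk L1 * (sg x e * FreeGroup.mk L2) := by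
  rw [← FreeGroup.mul_mk, mk_cons']
  rfl

/-- The number of occurrences is not one, and if it is two then the sum of the products vanishes. -/
theorem occ_ne_one (φ : FreeGroup (Fin k) →* FreeGroup (Fin k)) (x : Fin k)
    (L : List (Fin k × Bool)) (hL : FreeGroup.mk L = φ (cubes k)) : occ x L ≠ 1 := by
  intro h
  obtain ⟨L1, L2, e, rfl, h1, h2⟩ := split_occ x 0 L h
  have h3 := rho_p x x x (φ (cubes k))
  rw [rho_cubes, ← hL, mk_split, E_mul, E_mul, E_occ_zero x L1 h1, E_occ_zero x L2 h2, E_sg] at h3
  revert h3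
  cases e <;> simp

theorem sum_zero (φ : FreeGroup (Fin k) →* FreeGroup (Fin k)) (x : Fin k)
    (L : List (Fin k × Bool)) (hL : FreeGroup.mk L = φ (cubes k)) (h : occ x L = 2) (b c : Fin k) :
    ∑ i, E x (φ (FreeGroup.of i)) * E b (φ (FreeGroup.of i)) * E c (φ (FreeGroup.of i)) = 0 := by
  obtain ⟨L1, L', e, rfl, h1, h'⟩ := split_occ x 1 L h
  obtain ⟨L2, L3, e', rfl, h2, h3⟩ := split_occ x 0 L' h'
  rw [mk_split, mk_split] at hL
  have he : e' = !e := by
    have h3' := rho_p x x x (φ (cubes k))
    rw [rho_cubes, ← hL, E_mul, E_mul, E_mul, E_mul, E_occ_zero x L1 h1, E_occ_zero x L2 h2,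
      E_occ_zero x L3 h3, E_sg, E_sg] at h3'
    revert h3'
    cases e <;> cases e' <;> simp <;> decide
  subst he
  by_cases hb : b = x
  · by_cases hc : c = x
    · subst hb hc
      have h4 := rho_cubes φ c c c
      rw [← hL, _root_.map_mul, _root_.map_mul, _root_.map_mul, _root_.map_mul,
        rho_occ_zero3 c L1 h1, rho_occ_zero3 c L2 h2, rho_occ_zero3 c L3 h3] at h4
      have h5 : sg c (!e) = (sg c e)⁻¹ := by cases e <;> simp [sg]
      rw [h5, _root_.map_inv, one_mul, one_mul, mul_one, mul_inv_cancel] at h4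
      exact (congrArg U3.u h4).symm
    · subst hb
      have h4 := rho_cubes φ b c b
      obtain ⟨q1, e1⟩ := rho_occ_zero2 b c hc L1 h1
      obtain ⟨q2, e2⟩ := rho_occ_zero2 b c hc L2 h2
      obtain ⟨q3, e3⟩ := rho_occ_zero2 b c hc L3 h3
      have hc' : b ≠ c := fun h => hc h.symm
      rw [← hL, _root_.map_mul, _root_.map_mul, _root_.map_mul, _root_.map_mul, e1, e2, e3] at h4
      have h6 : ∑ i, E b (φ (FreeGroup.of i)) * E b (φ (FreeGroup.of i)) *
          E c (φ (FreeGroup.of i)) = ∑ i, E b (φ (FreeGroup.of i)) * E c (φ (FreeGroup.of i)) *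
          E b (φ (FreeGroup.of i)) := Finset.sum_congr rfl fun i _ => by ring
      rw [h6]
      cases e
      · simp only [sg, Bool.not_false, cond_true, cond_false, _root_.map_inv, rho, lift_apply_of,
          inv_def, mul_def, if_true, hc', if_false, U3.mk.injEq] at h4
        obtain ⟨-, -, -, g1, g2, g3⟩ := h4
        rw [← g3]
        linear_combination g1
      · simp only [sg, Bool.not_true, cond_true, cond_false, _root_.map_inv, rho, lift_apply_of,
          inv_def, mul_def, if_true, hc', if_false, U3.mk.injEq] at h4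
        obtain ⟨-, -, -, g1, g2, g3⟩ := h4
        rw [← g3]
        linear_combination (-1 : ZMod 3) * g1
  · by_cases hc : c = x
    · subst hc
      have h4 := rho_cubes φ c b c
      obtain ⟨q1, e1⟩ := rho_occ_zero2 c b hb L1 h1
      obtain ⟨q2, e2⟩ := rho_occ_zero2 c b hb L2 h2
      obtain ⟨q3, e3⟩ := rho_occ_zero2 c b hb L3 h3
      have hb' : c ≠ b := fun h => hb h.symm
      rw [← hL, _root_.map_mul, _root_.map_mul, _root_.map_mul, _root_.map_mul, e1, e2, e3] at h4
      cases e
      · simp only [sg, Bool.not_false, cond_true, cond_false, _root_.map_inv, rho, lift_apply_of,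
          inv_def, mul_def, if_true, hb', if_false, U3.mk.injEq] at h4
        obtain ⟨-, -, -, g1, g2, g3⟩ := h4
        rw [← g3]
        linear_combination g1
      · simp only [sg, Bool.not_true, cond_true, cond_false, _root_.map_inv, rho, lift_apply_of,
          inv_def, mul_def, if_true, hb', if_false, U3.mk.injEq] at h4
        obtain ⟨-, -, -, g1, g2, g3⟩ := h4
        rw [← g3]
        linear_combination (-1 : ZMod 3) * g1
    · have h4 := rho_cubes φ b x c
      obtain ⟨p1, r1, e1⟩ := rho_occ_zero1 x b c hb hc L1 h1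
      obtain ⟨p2, r2, e2⟩ := rho_occ_zero1 x b c hb hc L2 h2
      obtain ⟨p3, r3, e3⟩ := rho_occ_zero1 x b c hb hc L3 h3
      have hb' : x ≠ b := fun h => hb h.symm
      have hc' : x ≠ c := fun h => hc h.symm
      rw [← hL, _root_.map_mul, _root_.map_mul, _root_.map_mul, _root_.map_mul, e1, e2, e3] at h4
      have h6 : ∑ i, E x (φ (FreeGroup.of i)) * E b (φ (FreeGroup.of i)) *
          E c (φ (FreeGroup.of i)) = ∑ i, E b (φ (FreeGroup.of i)) * E x (φ (FreeGroup.of i)) *
          E c (φ (FreeGroup.of i)) := Finset.sum_congr rfl fun i _ => by ring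
      rw [h6]
      cases e
      · simp only [sg, Bool.not_false, cond_true, cond_false, _root_.map_inv, rho, lift_apply_of,
          inv_def, mul_def, if_true, hb', hc', if_false, U3.mk.injEq] at h4
        obtain ⟨-, -, -, g1, g2, g3⟩ := h4
        rw [← g3]
        have k1 : p2 = 0 := by linear_combination g1
        have k2 : r2 = 0 := by linear_combination -g2
        rw [k1, k2]
        ring
      · simp only [sg, Bool.not_true, cond_true, cond_false, _root_.map_inv, rho, lift_apply_of,
          inv_def, mul_def, if_true, hb', hc', if_false, U3.mk.injEq] at h4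
        obtain ⟨-, -, -, g1, g2, g3⟩ := h4
        rw [← g3]
        have k1 : p2 = 0 := by linear_combination -g1
        have k2 : r2 = 0 := by linear_combination g2
        rw [k1, k2]
        ring

/-- An additive function is determined by its values at the generators. -/
theorem add_formula (f : FreeGroup (Fin k) →* Multiplicative (ZMod 3)) (g : FreeGroup (Fin k)) :
    (f g).toAdd = ∑ c, E c g * (f (FreeGroup.of c)).toAdd := by
  have : f = lift fun x => Multiplicative.ofAdd (f (FreeGroup.of x)).toAdd := by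
    apply FreeGroup.ext_hom
    intro x
    simp
  induction g using FreeGroup.induction_on with
  | C1 => simp [E]
  | of x =>
    simp only [E_of]
    simp
  | inv_of x _ =>
    have : ∀ c, E c (FreeGroup.of x)⁻¹ = - E c (FreeGroup.of x) := fun c => by
      simp [E]
    simp only [this, E_of]
    simp
  | mul x y hx hy =>
    rw [_root_.map_mul, toAdd_mul, hx, hy, ← Finset.sum_add_distrib]
    refine Finset.sum_congr rfl fun c _ => ?_
    rw [E_mul]
    ring

theorem occ_ne_two (φ : FreeGroup (Fin k) ≃* FreeGroup (Fin k)) (x : Fin k)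
    (L : List (Fin k × Bool)) (hL : FreeGroup.mk L = φ (cubes k)) : occ x L ≠ 2 := by
  intro h
  have hS := sum_zero φ.toMonoidHom x L hL h
  set Y : Fin k → Fin k → ZMod 3 := fun i c => E c (φ (FreeGroup.of i)) with hY
  set Q : Fin k → Fin k → ZMod 3 := fun c j => E j (φ.symm (FreeGroup.of c)) with hQ
  have hS' : ∀ b c, ∑ i, Y i x * Y i b * Y i c = 0 := hS
  have hYQ : ∀ i j, ∑ c, Y i c * Q c j = if i = j then 1 else 0 := by
    intro i j
    have := add_formula ((Em j).comp φ.symm.toMonoidHom) (φ (FreeGroup.of i))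
    have h2 : (((Em j).comp φ.symm.toMonoidHom) (φ (FreeGroup.of i))).toAdd =
        E j (FreeGroup.of i) := by
      simp [E]
    rw [h2, E_of] at this
    rw [this]
    rfl
  have hQY : ∀ c j, ∑ i, Q c i * Y i j = if c = j then 1 else 0 := by
    intro c j
    have := add_formula ((Em j).comp φ.toMonoidHom) (φ.symm (FreeGroup.of c))
    have h2 : (((Em j).comp φ.toMonoidHom) (φ.symm (FreeGroup.of c))).toAdd =
        E j (FreeGroup.of c) := by
      simp [E]
    rw [h2, E_of] at this
    rw [this]
    rfl
  have key : ∀ f : Fin k → ZMod 3, (∀ c, ∑ i, f i * Y i c = 0) → ∀ j, f j = 0 := by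
    intro f hf j
    have h1 : ∑ c, (∑ i, f i * Y i c) * Q c j = f j := by
      simp only [Finset.sum_mul]
      rw [Finset.sum_comm]
      have : ∀ i, ∑ c, f i * Y i c * Q c j = f i * ∑ c, Y i c * Q c j := fun i => by
        rw [Finset.mul_sum]
        exact Finset.sum_congr rfl fun c _ => by ring
      simp only [this, hYQ]
      simp
    rw [← h1]
    simp [hf]
  have h1 : ∀ b i, Y i x * Y i b = 0 := fun b => key _ fun c => hS' b c
  have h2 : ∀ i, Y i x = 0 := by
    intro i
    have h3 : ∑ b, (Y i x * Y i b) * Q b i = Y i x := by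
      have : ∀ b, (Y i x * Y i b) * Q b i = Y i x * (Y i b * Q b i) := fun b => by ring
      simp only [this]
      rw [← Finset.mul_sum, hYQ]
      simp
    rw [← h3]
    simp [h1]
  have h4 := hQY x x
  simp [h2] at h4

end Pool.Agent.H67R4.OG
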