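import Mathlib
import Pool.Agent.Helper307.AO.J7

set_option autoImplicit false

/-!
# Conjugate cyclically reduced words are rotations of each other
The proofs are those of the file `Pool.Agent.Helper825.PW.Rot`.
-/

namespace Pool.Agent.H67R4.OG
open FreeGroup

variable {Y : Type} [DecidableEq Y]

theorem isCyc_rotate_one {a : Y × Bool} {L : List (Y × Bool)} (h : IsCyclicallyReduced (a :: L)) :
    IsCyclicallyReduced (L ++ [a]) := by
  rcases L.eq_nil_or_concat with rfl | ⟨M, b, rfl⟩
  · simp
  · simp only [List.concat_eq_append] at h ⊢
    obtain ⟨h1, h2⟩ := h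
    have hne : M ++ [b] ≠ [] := by simp
    unfold FreeGroup.IsReduced at h1
    rw [List.isChain_cons] at h1
    refine ⟨?_, ?_⟩
    · unfold FreeGroup.IsReduced
      rw [List.isChain_append]
      refine ⟨h1.2, List.isChain_singleton _, ?_⟩
      intro x hx y hy
      have hy' : y = a := by simpa using hy.symm
      subst hy'
      refine h2 x ?_ y (by simp)
      have hx' : b = x := by simpa using hx
      rw [Option.mem_def, ← List.cons_append, List.getLast?_append]
      simp [hx']
    · intro x hx y hy
      have hx' : x = a := by simpa using hx.symm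
      subst hx'
      refine h1.1 y ?_
      rw [List.head?_append_of_ne_nil _ hne] at hy
      exact hy

theorem isCyc_rotate_last {a : Y × Bool} {L : List (Y × Bool)} (h : IsCyclicallyReduced (L ++ [a])) :
    IsCyclicallyReduced (a :: L) := by
  rcases L with _ | ⟨b, M⟩
  · simp
  · obtain ⟨h1, h2⟩ := h
    unfold FreeGroup.IsReduced at h1
    rw [List.isChain_append] at h1
    refine ⟨?_, ?_⟩
    · unfold FreeGroup.IsReduced
      rw [List.isChain_cons]
      refine ⟨?_, h1.1⟩
      intro y hy
      refine h2 a (by rw [Option.mem_def, List.getLast?_append]; simp) y ?_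
      simpa using hy
    · intro x hx y hy
      have hy' : y = a := by simpa using hy.symm
      subst hy'
      refine h1.2.2 x ?_ y (by simp)
      have hne : b :: M ≠ [] := by simp
      rw [← List.singleton_append, List.getLast?_append, List.getLast?_eq_some_getLast hne] at hx
      rw [List.getLast?_eq_some_getLast hne]
      simpa using hx

/-- conjugate cyclically reduced words are rotations of each other -/
theorem conj_rot_aux (n : ℕ) : ∀ (D L L' : List (Y × Bool)), D.length = n → IsReduced D →
    IsCyclicallyReduced L → IsCyclicallyReduced L' → mk L' = (mk D)⁻¹ * mk L * mk D →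
    L ~r L' := by
  induction n with
  | zero =>
    intro D L L' hn _ hL hL' h
    have hD : D = [] := List.length_eq_zero_iff.1 hn
    subst hD
    rw [← one_eq_mk, inv_one, one_mul, mul_one] at h
    have h1 := congrArg toWord h
    rw [toWord_mk, toWord_mk, hL.1.reduce_eq, hL'.1.reduce_eq] at h1
    rw [h1]
  | succ n ih =>
    intro D L L' hn hD hL hL' h
    obtain ⟨d, D', rfl⟩ : ∃ d D', D = d :: D' := by
      cases D with
      | nil => simp at hn
      | cons d D' => exact ⟨d, D', rfl⟩
    have hn' : D'.length = n := by simpa using hn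
    have hD' : IsReduced D' := by
      unfold FreeGroup.IsReduced at *
      exact (List.isChain_cons.1 hD).2
    have hmk : mk (d :: D') = mk [d] * mk D' := by rw [mul_mk]; rfl
    rcases eq_or_ne L [] with rfl | hne
    · have : mk L' = 1 := by rw [h, ← one_eq_mk]; group
      have h1 := congrArg toWord this
      rw [toWord_mk, hL'.1.reduce_eq, toWord_one] at h1
      rw [h1]
    by_cases hhead : d = L.head hne
    · -- `L = d :: M`
      obtain ⟨M, rfl⟩ : ∃ M, L = d :: M := ⟨L.tail, by rw [hhead, List.cons_head_tail]⟩
      have hrot : IsCyclicallyReduced (M ++ [d]) := isCyc_rotate_one hL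
      have := ih D' (M ++ [d]) L' hn' hD' hrot hL' (by
        rw [h, hmk, ← mul_mk]
        have : mk (d :: M) = mk [d] * mk M := by rw [mul_mk]; rfl
        rw [this]; group)
      refine List.IsRotated.trans ?_ this
      exact ⟨1, by simp⟩
    by_cases hlast : (L.getLast hne).1 = d.1 → (L.getLast hne).2 = d.2
    · -- the conjugate is reduced and not cyclically reduced
      exfalso
      have hred := H307AO.conj_lower_red L D' d hL.1 hne hD hlast hhead
      have h1 : mk L' = mk (invRev (d :: D') ++ L ++ (d :: D')) := by
        rw [h, inv_mk, mul_mk, mul_mk]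
      have h2 := congrArg toWord h1
      rw [toWord_mk, toWord_mk, hL'.1.reduce_eq, hred.reduce_eq] at h2
      -- first and last letters
      rcases (d :: D').eq_nil_or_concat with h3 | ⟨M, b, h3⟩
      · simp at h3
      · rw [List.concat_eq_append] at h3
        rw [h3] at h2
        have h4 : invRev (M ++ [b]) = (b.1, !b.2) :: invRev M := by
          simp [invRev]
        rw [h4] at h2
        have h5 := hL'.2 b (by
          rw [h2, Option.mem_def, ← List.append_assoc, List.getLast?_append]; simp)
          (b.1, !b.2) (by rw [h2]; simp) rfl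
        simp at h5
    · -- `L = M ++ [d⁻¹]`
      have hl : (L.getLast hne) = (d.1, !d.2) := by
        have h1 : (L.getLast hne).1 = d.1 := by
          by_contra hc; exact hlast fun h => absurd h hc
        have h2 : (L.getLast hne).2 ≠ d.2 := fun hc => hlast fun _ => hc
        refine Prod.ext h1 ?_
        show _ = !d.2
        revert h2
        cases (L.getLast hne).2 <;> cases d.2 <;> simp
      obtain ⟨M, rfl⟩ : ∃ M, L = M ++ [(d.1, !d.2)] :=
        ⟨L.dropLast, by rw [← hl, List.dropLast_append_getLast]⟩
      have hrot : IsCyclicallyReduced ((d.1, !d.2) :: M) := isCyc_rotate_last hL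
      have hinv : mk [(d.1, !d.2)] = (mk [d])⁻¹ := by rw [inv_mk]; simp [invRev]
      have := ih D' ((d.1, !d.2) :: M) L' hn' hD' hrot hL' (by
        rw [h, hmk, ← mul_mk]
        have : mk ((d.1, !d.2) :: M) = mk [(d.1, !d.2)] * mk M := by rw [mul_mk]; rfl
        rw [this, hinv]; group)
      refine List.IsRotated.trans ?_ this
      refine List.IsRotated.symm ⟨1, by simp⟩

theorem conj_rot {L L' : List (Y × Bool)} (hL : IsCyclicallyReduced L)
    (hL' : IsCyclicallyReduced L') (h : IsConj (mk L) (mk L')) : L ~r L' := by
  obtain ⟨c, hc⟩ := isConj_iff.1 h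
  refine conj_rot_aux _ (toWord c⁻¹) L L' rfl isReduced_toWord hL hL' ?_
  rw [mk_toWord, inv_inv, hc]


end Pool.Agent.H67R4.OG
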