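import Mathlib
import Pool.Agent.H67R4.OG.Rot
import Pool.Agent.H67R4.OG.Mu

set_option autoImplicit false

/-!
# Growth of the set of cyclic words in an automorphic orbit
-/

namespace Pool.Agent.H67R4.OG

open FreeGroup Filter Topology

variable {k : ℕ}

theorem cyclicWords_bound (w : FreeGroup (Fin k)) (N : ℕ) :
    (CyclicWords w N).Finite ∧ (CyclicWords w N).ncard ≤ (2 * k) ^ N := by
  set f : (Fin N → Fin k × Bool) → ConjClasses (FreeGroup (Fin k)) :=
    fun v => ConjClasses.mk (FreeGroup.mk (List.ofFn v)) with hf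
  have hsub : CyclicWords w N ⊆ f '' Set.univ := by
    rintro C ⟨-, L, -, hL, rfl⟩
    subst hL
    refine ⟨L.get, trivial, ?_⟩
    simp only [hf, List.ofFn_get]
  have hfin : (f '' Set.univ).Finite := Set.toFinite _
  refine ⟨hfin.subset hsub, ?_⟩
  calc (CyclicWords w N).ncard ≤ (f '' Set.univ).ncard := Set.ncard_le_ncard hsub hfin
    _ ≤ (Set.univ : Set (Fin N → Fin k × Bool)).ncard := Set.ncard_image_le (Set.toFinite _)
    _ = (2 * k) ^ N := by
      rw [Set.ncard_univ, Nat.card_eq_fintype_card]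
      simp [mul_comm]

theorem bounded_seq (w : FreeGroup (Fin k)) :
    IsBoundedUnder (· ≤ ·) atTop
      (fun N : ℕ => ((CyclicWords w N).ncard : ℝ) ^ ((1 : ℝ) / N)) := by
  refine ⟨2 * k, ?_⟩
  rw [eventually_map, eventually_atTop]
  refine ⟨1, fun N hN => ?_⟩
  have h1 : ((CyclicWords w N).ncard : ℝ) ≤ (2 * (k : ℝ)) ^ N := by
    exact_mod_cast (cyclicWords_bound w N).2
  calc ((CyclicWords w N).ncard : ℝ) ^ ((1 : ℝ) / N) ≤ ((2 * (k : ℝ)) ^ N) ^ ((1 : ℝ) / N) :=
        Real.rpow_le_rpow (by positivity) h1 (by positivity)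
    _ = 2 * k := by
        rw [one_div, Real.pow_rpow_inv_natCast (by positivity) (by omega)]

variable {n : ℕ}

/-- The word of the product of the cubes of the generators different from the first one. -/
def tailW (n : ℕ) : List (Fin (n + 3) × Bool) :=
  (List.ofFn fun i : Fin (n + 2) => [(i.succ, true), (i.succ, true), (i.succ, true)]).flatten

theorem tailW_eq (n : ℕ) : ∃ R : List (Fin (n + 3) × Bool),
    tailW n = ((0 : Fin (n + 2)).succ, true) :: R ∧ ∀ a ∈ R, a.2 = true := by
  refine ⟨[((0 : Fin (n + 2)).succ, true), ((0 : Fin (n + 2)).succ, true)] ++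
    (List.ofFn fun i : Fin (n + 1) =>
      [(i.succ.succ, true), (i.succ.succ, true), (i.succ.succ, true)]).flatten, ?_, ?_⟩
  · rw [tailW, List.ofFn_succ]
    rfl
  · intro a ha
    rw [List.mem_append] at ha
    rcases ha with ha | ha
    · simp at ha
      rw [ha]
    · rw [List.mem_flatten] at ha
      obtain ⟨l, hl, hal⟩ := ha
      rw [List.mem_ofFn] at hl
      obtain ⟨i, rfl⟩ := hl
      simp at hal
      rw [hal]

theorem tailW_length (n : ℕ) : (tailW n).length = 3 * (n + 2) := by
  rw [tailW, List.length_flatten, List.map_ofFn]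
  have : (List.length ∘ fun i : Fin (n + 2) => [(i.succ, true), (i.succ, true), (i.succ, true)]) =
      fun _ => 3 := by
    funext i
    rfl
  rw [this, List.sum_ofFn]
  simp [mul_comm]

theorem mk_flatten : ∀ l : List (List (Fin k × Bool)),
    (FreeGroup.mk l.flatten : FreeGroup (Fin k)) = (l.map FreeGroup.mk).prod
  | [] => by simp [← FreeGroup.one_eq_mk]
  | a :: l => by
    rw [List.flatten_cons, ← FreeGroup.mul_mk, mk_flatten l, List.map_cons, List.prod_cons]

theorem mk_tailW (n : ℕ) : (FreeGroup.mk (tailW n) : FreeGroup (Fin (n + 3))) =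
    (List.ofFn fun i : Fin (n + 2) => FreeGroup.of i.succ ^ 3).prod := by
  rw [tailW, mk_flatten, List.map_ofFn]
  congr 2

theorem chain_pos : ∀ (L : List (Fin k × Bool)), (∀ a ∈ L, a.2 = true) → IsReduced L
  | [], _ => IsReduced.nil
  | [a], _ => IsReduced.singleton
  | a :: b :: L, h => by
    rw [isReduced_cons_cons]
    refine ⟨fun _ => ?_, chain_pos (b :: L) fun c hc => h c (List.mem_cons_of_mem _ hc)⟩
    rw [h a (by simp), h b (by simp)]

/-- The word `c` by which the first generator is conjugated. -/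
def Cw (D : List (Fin (n + 2) × Bool)) : List (Fin (n + 3) × Bool) :=
  (((1 : Fin (n + 2)), true) :: D).map fun a => (a.1.succ, a.2)

/-- The word of the image. -/
def wordD (D : List (Fin (n + 2) × Bool)) : List (Fin (n + 3) × Bool) :=
  Cw D ++ ([(0, true), (0, true), (0, true)] ++ (invRev (Cw D) ++ tailW n))

theorem wordD_length (D : List (Fin (n + 2) × Bool)) :
    (wordD D).length = 2 * D.length + 3 * n + 11 := by
  simp only [wordD, Cw, List.length_append, List.length_map, List.length_cons, invRev_length,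
    tailW_length, List.length_nil]
  ring

theorem Cw_ne (D : List (Fin (n + 2) × Bool)) (a : Fin (n + 3) × Bool) (ha : a ∈ Cw D) :
    a.1 ≠ 0 := by
  rw [Cw, List.mem_map] at ha
  obtain ⟨b, -, rfl⟩ := ha
  exact Fin.succ_ne_zero _

theorem Cw_red (D : List (Fin (n + 2) × Bool)) (hD : IsReduced (((1 : Fin (n + 2)), true) :: D)) :
    IsReduced (Cw D) := by
  unfold FreeGroup.IsReduced at hD ⊢
  rw [Cw, List.isChain_map]
  refine hD.imp ?_
  intro a b hab h
  exact hab (Fin.succ_injective _ h)

theorem wordD_cyc (D : List (Fin (n + 2) × Bool))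
    (hD : IsReduced (((1 : Fin (n + 2)), true) :: D)) : IsCyclicallyReduced (wordD D) := by
  have hC := Cw_red D hD
  have hi : IsReduced (invRev (Cw D)) := by
    apply IsReduced.of_reduce_eq
    rw [reduce_invRev, hC.reduce_eq]
  obtain ⟨R, hR, hpos⟩ := tailW_eq n
  have hT : IsReduced (tailW n) := by
    apply chain_pos
    rw [hR]
    intro a ha
    rw [List.mem_cons] at ha
    rcases ha with rfl | ha
    · rfl
    · exact hpos a ha
  have hinv : ∀ a ∈ invRev (Cw D), a.1 ≠ 0 := by
    intro a ha
    rw [invRev, List.mem_reverse, List.mem_map] at ha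
    obtain ⟨b, hb, rfl⟩ := ha
    exact Cw_ne D b hb
  refine ⟨?_, ?_⟩
  · unfold FreeGroup.IsReduced at hC hi hT ⊢
    rw [wordD, List.isChain_append, List.isChain_append, List.isChain_append]
    refine ⟨hC, ⟨by simp, ⟨hi, hT, ?_⟩, ?_⟩, ?_⟩
    · intro a ha b hb h
      rw [hR] at hb
      have hb' : b = ((0 : Fin (n + 2)).succ, true) := by simpa using hb.symm
      have ha' : a = ((1 : Fin (n + 2)).succ, false) := by
        have : invRev (Cw D) = invRev (D.map fun a => (a.1.succ, a.2)) ++
            [((1 : Fin (n + 2)).succ, false)] := by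
          rw [Cw, List.map_cons, invRev_cons]
          rfl
        rw [this, List.getLast?_append] at ha
        simpa using ha.symm
      rw [ha', hb'] at h
      have h' : (1 : Fin (n + 2)).succ = (0 : Fin (n + 2)).succ := h
      have := Fin.succ_injective _ h'
      simp at this
    · intro a ha b hb h
      have ha' : a = (0, true) := by simpa using ha.symm
      have hb' : b.1 ≠ 0 := by
        apply hinv
        have hne : invRev (Cw D) ≠ [] := by
          intro h
          have := congrArg List.length h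
          simp [Cw] at this
        rw [List.head?_append_of_ne_nil _ hne] at hb
        exact List.mem_of_mem_head? hb
      rw [ha'] at h
      exact absurd h.symm hb'
    · intro a ha b hb h
      have hb' : b = (0, true) := by simpa using hb.symm
      have ha' : a.1 ≠ 0 := Cw_ne D a (List.mem_of_mem_getLast? ha)
      rw [hb'] at h
      exact absurd h ha'
  · intro a ha b hb h
    have hb' : b = ((1 : Fin (n + 2)).succ, true) := by
      simp [wordD, Cw] at hb
      simpa using hb.symm
    have ha' : a ∈ tailW n := by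
      have hne : tailW n ≠ [] := by rw [hR]; simp
      rw [wordD, ← List.append_assoc, ← List.append_assoc, List.getLast?_append,
        List.getLast?_eq_some_getLast hne] at ha
      simp at ha
      rw [← ha]
      exact List.getLast_mem hne
    rw [hb']
    rw [hR, List.mem_cons] at ha'
    rcases ha' with rfl | ha'
    · rfl
    · exact hpos a ha'

/-- Images of the first generator, the others being fixed. -/
def Fh (a : FreeGroup (Fin (n + 3))) : FreeGroup (Fin (n + 3)) →* FreeGroup (Fin (n + 3)) :=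
  lift (Fin.cases a fun i => FreeGroup.of i.succ)

theorem Fh_zero (a : FreeGroup (Fin (n + 3))) : Fh a (FreeGroup.of 0) = a := by
  simp [Fh]

theorem Fh_succ (a : FreeGroup (Fin (n + 3))) (i : Fin (n + 2)) :
    Fh a (FreeGroup.of i.succ) = FreeGroup.of i.succ := by
  simp [Fh]

theorem Fh_map (a : FreeGroup (Fin (n + 3))) (g : FreeGroup (Fin (n + 2))) :
    Fh a (FreeGroup.map Fin.succ g) = FreeGroup.map Fin.succ g := by
  have : (Fh a).comp (FreeGroup.map Fin.succ) = FreeGroup.map Fin.succ := by
    apply FreeGroup.ext_hom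
    intro i
    simp [Fh_succ]
  exact congrArg (fun f => f g) this

/-- The automorphism which conjugates the first generator by an element of the subgroup generated
by the others. -/
def conjAut (c : FreeGroup (Fin (n + 2))) : FreeGroup (Fin (n + 3)) ≃* FreeGroup (Fin (n + 3)) :=
  MonoidHom.toMulEquiv
    (Fh (FreeGroup.map Fin.succ c * FreeGroup.of 0 * (FreeGroup.map Fin.succ c)⁻¹))
    (Fh ((FreeGroup.map Fin.succ c)⁻¹ * FreeGroup.of 0 * FreeGroup.map Fin.succ c))
    (by
      apply FreeGroup.ext_hom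
      intro i
      refine Fin.cases ?_ (fun i => ?_) i
      · simp only [MonoidHom.comp_apply, Fh_zero, _root_.map_mul, _root_.map_inv, Fh_map,
          MonoidHom.id_apply]
        group
      · simp only [MonoidHom.comp_apply, Fh_succ, MonoidHom.id_apply])
    (by
      apply FreeGroup.ext_hom
      intro i
      refine Fin.cases ?_ (fun i => ?_) i
      · simp only [MonoidHom.comp_apply, Fh_zero, _root_.map_mul, _root_.map_inv, Fh_map,
          MonoidHom.id_apply]
        group
      · simp only [MonoidHom.comp_apply, Fh_succ, MonoidHom.id_apply])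

theorem mk_wordD (D : List (Fin (n + 2) × Bool)) : (FreeGroup.mk (wordD D)) =
    conjAut (FreeGroup.mk (((1 : Fin (n + 2)), true) :: D)) (cubes (n + 3)) := by
  have hc : (FreeGroup.mk (Cw D) : FreeGroup (Fin (n + 3))) =
      FreeGroup.map Fin.succ (FreeGroup.mk (((1 : Fin (n + 2)), true) :: D)) := by
    rw [FreeGroup.map.mk]
    rfl
  have h1 : ∀ g, conjAut (FreeGroup.mk (((1 : Fin (n + 2)), true) :: D)) g =
      Fh (FreeGroup.mk (Cw D) * FreeGroup.of 0 * (FreeGroup.mk (Cw D))⁻¹) g := fun g => by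
    rw [hc]
    rfl
  rw [h1, cubes, List.ofFn_succ, List.prod_cons, _root_.map_mul, _root_.map_pow, Fh_zero,
    map_list_prod, List.map_ofFn]
  have h2 : (⇑(Fh (FreeGroup.mk (Cw D) * FreeGroup.of 0 * (FreeGroup.mk (Cw D))⁻¹)) ∘
      fun i : Fin (n + 2) => FreeGroup.of i.succ ^ 3) = fun i => FreeGroup.of i.succ ^ 3 := by
    funext i
    simp only [Function.comp_apply, _root_.map_pow, Fh_succ]
  rw [h2, ← mk_tailW, wordD, ← FreeGroup.mul_mk, ← FreeGroup.mul_mk, ← FreeGroup.mul_mk,
    ← FreeGroup.inv_mk]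
  have h3 : (FreeGroup.mk [((0 : Fin (n + 3)), true), (0, true), (0, true)]) =
      FreeGroup.of (0 : Fin (n + 3)) ^ 3 := rfl
  rw [h3]
  generalize (FreeGroup.mk (Cw D) : FreeGroup (Fin (n + 3))) = c
  have h4 : (c * FreeGroup.of 0 * c⁻¹) ^ 3 = c * FreeGroup.of 0 ^ 3 * c⁻¹ := by
    rw [conj_pow]
  rw [h4]
  group

theorem wordD_inj (D D' : List (Fin (n + 2) × Bool)) (hl : D.length = D'.length)
    (h : wordD D = wordD D') : D = D' := by
  unfold wordD at h
  have h1 := List.append_inj_left h (by simp [Cw, hl])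
  rw [Cw, Cw] at h1
  have h2 : Function.Injective (fun a : Fin (n + 2) × Bool => (a.1.succ, a.2)) := by
    rintro ⟨a, b⟩ ⟨a', b'⟩ h
    simp only [Prod.mk.injEq] at h
    rw [Fin.succ_injective _ h.1, h.2]
  have h3 := List.map_injective_iff.mpr h2 h1
  simpa using h3

theorem count_lower (n c : ℕ) : (2 * n + 3) ^ c ≤
    (2 * c + 3 * n + 11) * (CyclicWords (cubes (n + 3)) (2 * c + 3 * n + 11)).ncard := by
  classical
  set T := H307AO.conj_lower_words (Y := Fin (n + 2)) c ((1 : Fin (n + 2)), true) with hT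
  have hcard : T.card = (2 * n + 3) ^ c := by
    rw [hT, H307AO.conj_lower_card, Fintype.card_fin]
    congr 1
  set f : List (Fin (n + 2) × Bool) → ConjClasses (FreeGroup (Fin (n + 3))) :=
    fun D => ConjClasses.mk (FreeGroup.mk (wordD D)) with hf
  have hspec : ∀ D ∈ T, D.length = c ∧ IsReduced (((1 : Fin (n + 2)), true) :: D) :=
    fun D hD => H307AO.conj_lower_spec c _ D hD
  have h1 : T.card ≤ (2 * c + 3 * n + 11) * (T.image f).card := by
    refine Finset.card_le_mul_card_image T _ ?_
    intro b hb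
    rw [Finset.mem_image] at hb
    obtain ⟨D0, hD0, rfl⟩ := hb
    have h2 : (T.filter fun a => f a = f D0).card ≤
        ((wordD D0).cyclicPermutations).toFinset.card := by
      refine Finset.card_le_card_of_injOn wordD ?_ ?_
      · intro D hD
        rw [Finset.mem_coe, Finset.mem_filter] at hD
        rw [Finset.mem_coe, List.mem_toFinset, List.mem_cyclicPermutations_iff]
        exact conj_rot (wordD_cyc D (hspec D hD.1).2) (wordD_cyc D0 (hspec D0 hD0).2)
          (ConjClasses.mk_eq_mk_iff_isConj.mp hD.2)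
      · intro D hD D' hD' h
        rw [Finset.mem_coe, Finset.mem_filter] at hD hD'
        exact wordD_inj D D' (by rw [(hspec D hD.1).1, (hspec D' hD'.1).1]) h
    refine h2.trans ((List.toFinset_card_le _).trans ?_)
    rw [List.length_cyclicPermutations_of_ne_nil, wordD_length, (hspec D0 hD0).1]
    intro h
    have := congrArg List.length h
    rw [wordD_length] at this
    simp at this
  have h3 : (T.image f).card ≤ (CyclicWords (cubes (n + 3)) (2 * c + 3 * n + 11)).ncard := by
    rw [← Set.ncard_coe_finset]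
    refine Set.ncard_le_ncard ?_ (cyclicWords_bound _ _).1
    intro C hC
    rw [Finset.mem_coe, Finset.mem_image] at hC
    obtain ⟨D, hD, rfl⟩ := hC
    refine ⟨⟨conjAut (FreeGroup.mk (((1 : Fin (n + 2)), true) :: D)), ?_⟩, wordD D,
      wordD_cyc D (hspec D hD).2, ?_, rfl⟩
    · simp only [hf]
      rw [mk_wordD]
    · rw [wordD_length, (hspec D hD).1]
  rw [← hcard]
  exact h1.trans (Nat.mul_le_mul_left _ h3)

theorem growth_lower (n : ℕ) : Real.sqrt (2 * n + 3) ≤ growth (cubes (n + 3)) := by
  refine le_of_forall_lt_imp_le_of_dense ?_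
  intro r hr
  set q : ℝ := max r 1 with hq
  have hB : (0 : ℝ) < 2 * n + 3 := by positivity
  have hq1 : 1 ≤ q := le_max_right _ _
  have hqB : q < Real.sqrt (2 * n + 3) := by
    rw [hq, max_lt_iff]
    refine ⟨hr, ?_⟩
    rw [Real.lt_sqrt (by norm_num)]
    have : (0 : ℝ) ≤ n := Nat.cast_nonneg n
    linarith
  refine (le_max_left r 1).trans ?_
  refine le_limsup_of_frequently_le ?_ (bounded_seq _)
  rw [frequently_atTop]
  intro N0
  have hq2 : q ^ 2 / (2 * n + 3) < 1 := by
    rw [div_lt_one hB]
    exact (Real.lt_sqrt (by linarith)).mp hqB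
  have hq0 : 0 ≤ q ^ 2 / (2 * n + 3) := by positivity
  have ht1 : Tendsto (fun c : ℕ => (c : ℝ) * (q ^ 2 / (2 * n + 3)) ^ c) atTop (𝓝 0) :=
    tendsto_self_mul_const_pow_of_lt_one hq0 hq2
  have ht2 : Tendsto (fun c : ℕ => (q ^ 2 / (2 * n + 3)) ^ c) atTop (𝓝 0) :=
    tendsto_pow_atTop_nhds_zero_of_lt_one hq0 hq2
  have ht3 : Tendsto (fun c : ℕ => (2 * q ^ (3 * n + 11)) * ((c : ℝ) * (q ^ 2 / (2 * n + 3)) ^ c) +
      ((3 * n + 11) * q ^ (3 * n + 11)) * (q ^ 2 / (2 * n + 3)) ^ c) atTop (𝓝 0) := by
    have := (ht1.const_mul (2 * q ^ (3 * n + 11))).add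
      (ht2.const_mul ((3 * (n : ℝ) + 11) * q ^ (3 * n + 11)))
    simpa using this
  obtain ⟨c, hc1, hc2⟩ := ((ht3.eventually_lt_const one_pos).and
    (eventually_ge_atTop N0)).exists
  refine ⟨2 * c + 3 * n + 11, by omega, ?_⟩
  set M := (CyclicWords (cubes (n + 3)) (2 * c + 3 * n + 11)).ncard with hM
  have hlow : ((2 : ℝ) * n + 3) ^ c ≤ (2 * c + 3 * n + 11) * (M : ℝ) := by
    exact_mod_cast count_lower n c
  have hpow : q ^ (2 * c + 3 * n + 11) ≤ (M : ℝ) := by
    have e1 : q ^ (2 * c + 3 * n + 11) = q ^ (3 * n + 11) * (q ^ 2) ^ c := by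
      rw [← pow_mul, ← pow_add]
      congr 1
      ring
    have e2 : (q ^ 2 / (2 * n + 3)) ^ c * (2 * n + 3) ^ c = (q ^ 2) ^ c := by
      rw [← mul_pow, div_mul_cancel₀ _ hB.ne']
    have e3 : (2 * (c : ℝ) + 3 * n + 11) * q ^ (2 * c + 3 * n + 11) ≤ (2 * n + 3) ^ c := by
      rw [e1, ← e2]
      have hBc : (0 : ℝ) < (2 * n + 3) ^ c := by positivity
      have := mul_le_mul_of_nonneg_right hc1.le hBc.le
      rw [one_mul] at this
      refine le_trans (le_of_eq ?_) this
      ring
    have hN : (0 : ℝ) < 2 * (c : ℝ) + 3 * n + 11 := by positivity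
    exact le_of_mul_le_mul_left (e3.trans hlow) hN
  have hM0 : (0 : ℝ) ≤ q ^ (2 * c + 3 * n + 11) := by positivity
  calc q = (q ^ (2 * c + 3 * n + 11)) ^ (((2 * c + 3 * n + 11 : ℕ) : ℝ)⁻¹) := by
        rw [Real.pow_rpow_inv_natCast (by linarith) (by omega)]
    _ ≤ (M : ℝ) ^ ((1 : ℝ) / ((2 * c + 3 * n + 11 : ℕ) : ℝ)) := by
        rw [one_div]
        exact Real.rpow_le_rpow hM0 hpow (by positivity)

end Pool.Agent.H67R4.OG
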