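import Mathlib
import Pool.Agent.H67R4.OG.Growth

set_option autoImplicit false

/-!
# The product of the cubes of the generators
-/

namespace Pool.Agent.H67R4.OG

open FreeGroup Filter

variable {k : ℕ}

theorem cubes_toWord (k : ℕ) : (cubes k).toWord =
    (List.ofFn fun i : Fin k => [(i, true), (i, true), (i, true)]).flatten ∧
    ∀ a ∈ (cubes k).toWord, a.2 = true := by
  set W : List (Fin k × Bool) :=
    (List.ofFn fun i : Fin k => [(i, true), (i, true), (i, true)]).flatten with hW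
  have hpos : ∀ a ∈ W, a.2 = true := by
    intro a ha
    rw [hW, List.mem_flatten] at ha
    obtain ⟨l, hl, hal⟩ := ha
    rw [List.mem_ofFn] at hl
    obtain ⟨i, rfl⟩ := hl
    simp at hal
    rw [hal]
  have h1 : cubes k = FreeGroup.mk W := by
    rw [hW, mk_flatten, List.map_ofFn, cubes]
    congr 2
  have h2 : (cubes k).toWord = W := by
    rw [h1, toWord_mk, (chain_pos W hpos).reduce_eq]
  rw [h2]
  exact ⟨rfl, hpos⟩

theorem occ_cubes (x : Fin k) : occ x (cubes k).toWord = 3 := by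
  rw [(cubes_toWord k).1, occ, List.countP_flatten, List.map_ofFn, List.sum_ofFn]
  have : ∀ i : Fin k, (List.countP (fun a : Fin k × Bool => decide (a.1 = x)) ∘
      fun i : Fin k => [(i, true), (i, true), (i, true)]) i = if i = x then 3 else 0 := by
    intro i
    by_cases h : i = x
    · simp [h]
    · simp [h]
  simp only [this]
  simp

theorem cubes_cyc (k : ℕ) : IsCyclicallyReduced (cubes k).toWord := by
  refine ⟨isReduced_toWord, fun a ha b hb _ => ?_⟩
  rw [(cubes_toWord k).2 a (List.mem_of_mem_getLast? ha),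
    (cubes_toWord k).2 b (List.mem_of_mem_head? hb)]

theorem three_le (φ : FreeGroup (Fin k) ≃* FreeGroup (Fin k)) (x : Fin k)
    (h : 0 < occ x (φ (cubes k)).toWord) : 3 ≤ occ x (φ (cubes k)).toWord := by
  have h1 := occ_ne_one φ.toMonoidHom x (φ (cubes k)).toWord mk_toWord
  have h2 := occ_ne_two φ x (φ (cubes k)).toWord mk_toWord
  omega

theorem mu_cubes (x : Fin k) : mu x (cubes k) = 3 := by
  have h3 : 3 ∈ {n | 0 < n ∧ ∃ φ : FreeGroup (Fin k) ≃* FreeGroup (Fin k),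
      occ x (φ (cubes k)).toWord = n} := ⟨by norm_num, MulEquiv.refl _, occ_cubes x⟩
  refine le_antisymm (Nat.sInf_le h3) (le_csInf ⟨3, h3⟩ ?_)
  rintro n ⟨hn, φ, rfl⟩
  exact three_le φ x hn

theorem muCyc_cubes (x : Fin k) : muCyc x (cubes k) = 3 := by
  have h3 : 3 ∈ {n | 0 < n ∧ ∃ φ : FreeGroup (Fin k) ≃* FreeGroup (Fin k),
      IsCyclicallyReduced (φ (cubes k)).toWord ∧ occ x (φ (cubes k)).toWord = n} :=
    ⟨by norm_num, MulEquiv.refl _, cubes_cyc k, occ_cubes x⟩
  refine le_antisymm (Nat.sInf_le h3) (le_csInf ⟨3, h3⟩ ?_)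
  rintro n ⟨hn, φ, -, rfl⟩
  exact three_le φ x hn

theorem main (hk : 3 ≤ k) : cubes k ≠ 1 ∧
    (∀ x : Fin k, mu x (cubes k) = 3 ∧ muCyc x (cubes k) = 3) ∧
    Real.sqrt (2 * k - 3) ≤ growth (cubes k) ∧
    ∀ x : Fin k, (2 * (k : ℝ) - 3) ^ ((1 : ℝ) / (mu x (cubes k) : ℝ)) < growth (cubes k) := by
  obtain ⟨n, rfl⟩ : ∃ n, k = n + 3 := ⟨k - 3, by omega⟩
  have hg : Real.sqrt (2 * ((n + 3 : ℕ) : ℝ) - 3) ≤ growth (cubes (n + 3)) := by
    have := growth_lower n
    have e : 2 * ((n + 3 : ℕ) : ℝ) - 3 = 2 * n + 3 := by push_cast; ring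
    rw [e]
    exact this
  refine ⟨?_, fun x => ⟨mu_cubes x, muCyc_cubes x⟩, hg, fun x => lt_of_lt_of_le ?_ hg⟩
  · intro h
    have := occ_cubes (0 : Fin (n + 3))
    rw [h, toWord_one] at this
    simp [occ] at this
  · rw [mu_cubes, Real.sqrt_eq_rpow]
    apply Real.rpow_lt_rpow_of_exponent_lt
    · push_cast
      have : (0 : ℝ) ≤ n := Nat.cast_nonneg n
      linarith
    · norm_num

end Pool.Agent.H67R4.OG
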